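import Mathlib

/-!
# The constant `ln 2` in Sherman's theorem on measurable paradoxes in `ℍ²` is optimal

Let `P` be a point of the hyperbolic plane and `X` the complement of `P`. Cut `X` into `N` equal
sectors with vertex `P`. A translation of length `t > ln 2` along the ray which bisects a sector maps
the sector into a sector of less than half the angle, if `N` is large. After a rotation the image of the
sector number `j` can be placed into the sector number `2 j` and also into the sector number `2 j + 1`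
of a partition into `2 N` equal sectors. So there are two piecewise isometric injections of `X` into `X`
with disjoint images, and the Banach-Schröder-Bernstein argument gives a paradoxical decomposition of
`X` with Borel pieces which uses only these `2 N` isometries, which move `P` by `t`, and the identity.
-/

set_option autoImplicit false

open Set Filter Topology MeasureTheory UpperHalfPlane
open scoped Real

namespace Pool.Agent.Results.MP_9ed947_gt.LogTwoOptimal

/-- `P` is a partition of `X` into nonempty sets. -/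
structure IsPartition {ι : Type} (X : Set ℍ) (P : ι → Set ℍ) : Prop where
  nonempty : ∀ i, (P i).Nonempty
  disjoint : ∀ i j, i ≠ j → Disjoint (P i) (P j)
  union : ⋃ i, P i = X

/-- A paradoxical decomposition of `X` with measurable pieces: two partitions `A₁, …, Aₘ` and
`B₁, …, Bₙ` of `X` into measurable sets (`m, n ≥ 1`) and isometries `ρ₁, …, ρₘ`, `σ₁, …, σₙ` such that the
sets `ρ₁(A₁), …, ρₘ(Aₘ), σ₁(B₁), …, σₙ(Bₙ)` again form a partition of `X`. Here measurable means
measurable with respect to (the completion of) the hyperbolic area measure. -/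
structure IsParadox (X : Set ℍ) (m n : ℕ) (A : Fin m → Set ℍ) (B : Fin n → Set ℍ)
    (ρ : Fin m → (ℍ ≃ᵢ ℍ)) (σ : Fin n → (ℍ ≃ᵢ ℍ)) : Prop where
  m_pos : 1 ≤ m
  n_pos : 1 ≤ n
  measA : ∀ i, NullMeasurableSet (A i)
  measB : ∀ j, NullMeasurableSet (B j)
  partA : IsPartition X A
  partB : IsPartition X B
  part : IsPartition X (Sum.elim (fun i => ρ i '' A i) (fun j => σ j '' B j))

/-- Property `(∗_c)`: for every measurable set `X` with a paradoxical decomposition with measurable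
pieces, either `X` has measure zero, or every point `P` is moved by at least `c` by some isometry
used in the decomposition. -/
def Star (c : ℝ) : Prop :=
  ∀ X : Set ℍ, NullMeasurableSet X → ∀ (m n : ℕ) (A : Fin m → Set ℍ) (B : Fin n → Set ℍ)
    (ρ : Fin m → (ℍ ≃ᵢ ℍ)) (σ : Fin n → (ℍ ≃ᵢ ℍ)), IsParadox X m n A B ρ σ →
      volume X = 0 ∨ ∀ P : ℍ, (∃ i, c ≤ dist P (ρ i P)) ∨ (∃ j, c ≤ dist P (σ j P))

/-! ### The disc model -/

/-- The coordinate of the disc model, with centre `i`. -/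
noncomputable def w (z : ℍ) : ℂ := ((z : ℂ) - Complex.I) / ((z : ℂ) + Complex.I)

lemma add_I_ne (z : ℍ) : (z : ℂ) + Complex.I ≠ 0 := by
  intro h
  have h1 := congrArg Complex.im h
  simp at h1
  have := z.im_pos
  linarith

lemma w_eq_zero {z : ℍ} : w z = 0 ↔ z = UpperHalfPlane.I := by
  unfold w
  rw [div_eq_zero_iff, or_iff_left (add_I_ne z), sub_eq_zero]
  constructor
  · intro h
    apply UpperHalfPlane.ext
    rw [h]
    rfl
  · rintro rfl
    rfl

lemma norm_w_lt (z : ℍ) : ‖w z‖ < 1 := by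
  unfold w
  rw [norm_div, div_lt_one (norm_pos_iff.2 (add_I_ne z))]
  rw [← Real.sqrt_sq (norm_nonneg ((z : ℂ) - Complex.I)),
    ← Real.sqrt_sq (norm_nonneg ((z : ℂ) + Complex.I))]
  apply Real.sqrt_lt_sqrt (sq_nonneg _)
  rw [← Complex.normSq_eq_norm_sq, ← Complex.normSq_eq_norm_sq, Complex.normSq_apply,
    Complex.normSq_apply]
  simp only [Complex.sub_re, Complex.sub_im, Complex.add_re, Complex.add_im, Complex.I_re,
    Complex.I_im, UpperHalfPlane.coe_re, UpperHalfPlane.coe_im]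
  have := z.im_pos
  nlinarith

lemma continuous_w : Continuous w := by
  unfold w
  apply Continuous.div
  · fun_prop
  · fun_prop
  · exact add_I_ne

lemma measurable_w : Measurable w := by
  unfold w
  have := UpperHalfPlane.measurable_coe
  fun_prop

/-- Rotations about `i`. -/
lemma exists_rotation (θ : ℝ) : ∃ g : ℍ ≃ᵢ ℍ, ∀ z, w (g z) = Complex.exp (θ * Complex.I) * w z := by
  let A : Matrix.SpecialLinearGroup (Fin 2) ℝ :=
    ⟨!![Real.cos (θ / 2), Real.sin (θ / 2); -Real.sin (θ / 2), Real.cos (θ / 2)], by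
      rw [Matrix.det_fin_two_of]
      nlinarith [Real.sin_sq_add_cos_sq (θ / 2)]⟩
  refine ⟨IsometryEquiv.constSMul A, fun z => ?_⟩
  have h1 : ((A • z : ℍ) : ℂ) = ((Real.cos (θ / 2) : ℂ) * z + Real.sin (θ / 2)) /
      (-(Real.sin (θ / 2) : ℂ) * z + Real.cos (θ / 2)) := by
    rw [UpperHalfPlane.coe_specialLinearGroup_apply]
    simp [A]
  have hden : -(Real.sin (θ / 2) : ℂ) * z + Real.cos (θ / 2) ≠ 0 := by
    intro h0
    have e1 := congrArg Complex.im h0
    have e2 := congrArg Complex.re h0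
    simp only [Complex.add_im, Complex.mul_im, Complex.neg_re, Complex.ofReal_re, Complex.neg_im,
      Complex.ofReal_im, Complex.zero_im, Complex.add_re, Complex.mul_re, Complex.zero_re,
      UpperHalfPlane.coe_re, UpperHalfPlane.coe_im, neg_zero, zero_mul, add_zero, sub_zero] at e1 e2
    have e3 : Real.sin (θ / 2) = 0 := by
      have := z.im_pos
      have e4 : Real.sin (θ / 2) * z.im = 0 := by linarith
      rcases mul_eq_zero.1 e4 with h | h
      · exact h
      · linarith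
    rw [e3] at e2
    have := Real.sin_sq_add_cos_sq (θ / 2)
    nlinarith
  set c : ℂ := (Real.cos (θ / 2) : ℂ) with hc
  set s : ℂ := (Real.sin (θ / 2) : ℂ) with hs
  have hcs : c ^ 2 + s ^ 2 = 1 := by
    rw [hc, hs]
    norm_cast
    linarith [Real.sin_sq_add_cos_sq (θ / 2)]
  have hexp : Complex.exp (θ * Complex.I) = (c + s * Complex.I) ^ 2 := by
    have : (θ : ℂ) * Complex.I = ((θ / 2 : ℝ) : ℂ) * Complex.I + ((θ / 2 : ℝ) : ℂ) * Complex.I := by
      push_cast; ring
    rw [this, Complex.exp_add, Complex.exp_mul_I, ← Complex.ofReal_cos, ← Complex.ofReal_sin, ← hc,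
      ← hs]
    ring
  have hcs1 : (c + s * Complex.I) * (c - s * Complex.I) = 1 := by
    have : (c + s * Complex.I) * (c - s * Complex.I) = c ^ 2 - s ^ 2 * Complex.I ^ 2 := by ring
    rw [this, Complex.I_sq]
    linear_combination hcs
  have hz := add_I_ne z
  have h2 : w (A • z) = (((c + s * Complex.I) * ((z : ℂ) - Complex.I))) /
      ((c - s * Complex.I) * ((z : ℂ) + Complex.I)) := by
    unfold w
    rw [h1, div_sub' hden, div_add' _ _ _ hden, div_div_div_cancel_right₀ hden]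
    congr 1
    · linear_combination s * Complex.I_sq
    · linear_combination s * Complex.I_sq
  have hm : c - s * Complex.I ≠ 0 := right_ne_zero_of_mul_eq_one hcs1
  change w (A • z) = _
  rw [h2, hexp]
  unfold w
  rw [mul_div_mul_comm]
  congr 1
  rw [div_eq_iff hm]
  linear_combination (-(c + s * Complex.I)) * hcs1

/-- Translations through `i`. -/
lemma exists_translation {t : ℝ} (ht : 0 ≤ t) : ∃ g : ℍ ≃ᵢ ℍ, dist UpperHalfPlane.I (g UpperHalfPlane.I) = t ∧
    ∀ z, w (g z) = (w z + ((Real.exp t - 1) / (Real.exp t + 1) : ℝ)) /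
      (1 + ((Real.exp t - 1) / (Real.exp t + 1) : ℝ) * w z) := by
  let a : {x : ℝ // 0 < x} := ⟨Real.exp t, Real.exp_pos t⟩
  have hiso := UpperHalfPlane.isometry_pos_mul a
  let g : ℍ ≃ᵢ ℍ := ⟨MulAction.toPerm a, hiso⟩
  refine ⟨g, ?_, fun z => ?_⟩
  · change dist UpperHalfPlane.I (a • UpperHalfPlane.I) = t
    rw [UpperHalfPlane.dist_of_re_eq (by simp)]
    rw [UpperHalfPlane.pos_real_im]
    simp [a, Real.dist_eq, abs_of_nonneg ht]
  · change w (a • z) = _
    have h1 : ((a • z : ℍ) : ℂ) = (Real.exp t : ℂ) * z := by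
      rw [UpperHalfPlane.coe_pos_real_smul]
      simp [a]
    set e : ℝ := Real.exp t with he
    have he0 : 0 < e := Real.exp_pos t
    have hz := add_I_ne z
    have h2 : (e : ℂ) * z + Complex.I ≠ 0 := by
      rw [← h1]; exact add_I_ne _
    have h3 : (e : ℂ) + 1 ≠ 0 := by
      norm_cast; positivity
    unfold w
    rw [h1]
    push_cast
    have h4 : ((z : ℂ) + Complex.I) * (e + 1) + (e - 1) * (z - Complex.I) =
        2 * (e * z + Complex.I) := by ring
    have h5 : 1 + ((e : ℂ) - 1) / (e + 1) * ((z - Complex.I) / (z + Complex.I)) =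
        2 * (e * z + Complex.I) / (((z : ℂ) + Complex.I) * (e + 1)) := by
      rw [← h4]
      field_simp
    have h6 : ((z : ℂ) - Complex.I) / (z + Complex.I) + ((e : ℂ) - 1) / (e + 1) =
        2 * (e * z - Complex.I) / (((z : ℂ) + Complex.I) * (e + 1)) := by
      have h7 : 2 * ((e : ℂ) * z - Complex.I) =
          ((z : ℂ) - Complex.I) * (e + 1) + (e - 1) * (z + Complex.I) := by ring
      rw [h7]
      field_simp
    rw [h5, h6, div_div_div_cancel_right₀ (mul_ne_zero hz h3), mul_div_mul_left _ _ two_ne_zero]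

/-- A rotation, a translation of length `t` and another rotation. -/
lemma exists_isometry {t : ℝ} (ht : 0 ≤ t) (α β : ℝ) : ∃ g : ℍ ≃ᵢ ℍ,
    dist UpperHalfPlane.I (g UpperHalfPlane.I) = t ∧
    ∀ z, w (g z) = Complex.exp (α * Complex.I) *
      ((Complex.exp ((-β : ℝ) * Complex.I) * w z + ((Real.exp t - 1) / (Real.exp t + 1) : ℝ)) /
      (1 + ((Real.exp t - 1) / (Real.exp t + 1) : ℝ) * (Complex.exp ((-β : ℝ) * Complex.I) * w z))) := by
  obtain ⟨g₁, h₁⟩ := exists_rotation (-β)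
  obtain ⟨g₂, h₂, h₂'⟩ := exists_translation ht
  obtain ⟨g₃, h₃⟩ := exists_rotation α
  have hfix : ∀ (g : ℍ ≃ᵢ ℍ) (θ : ℝ), (∀ z, w (g z) = Complex.exp (θ * Complex.I) * w z) →
      g UpperHalfPlane.I = UpperHalfPlane.I := by
    intro g θ h
    rw [← w_eq_zero, h, w_eq_zero.2 rfl, mul_zero]
  refine ⟨(g₁.trans g₂).trans g₃, ?_, fun z => ?_⟩
  · change dist UpperHalfPlane.I (g₃ (g₂ (g₁ UpperHalfPlane.I))) = t
    rw [hfix g₁ _ h₁]
    nth_rw 1 [← hfix g₃ _ h₃]
    rw [g₃.isometry.dist_eq]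
    exact h₂
  · change w (g₃ (g₂ (g₁ z))) = _
    rw [h₃, h₂', h₁]

/-! ### The contraction of sectors -/

/-- For `τ > 1/3` and small `δ` the translation `u ↦ (u + τ) / (1 + τ u)` of the unit disc maps the
sector `|arg u| ≤ δ` into the sector `|arg u| < δ / 2`. -/
lemma contraction {τ δ : ℝ} (hτ0 : 0 < τ) (hτ1 : τ < 1) (hδ0 : 0 < δ) (hδ1 : δ < π / 2)
    (hδ : 1 - 2 * τ - τ ^ 2 < 2 * τ ^ 2 * Real.cos δ) {u : ℂ} (hu0 : u ≠ 0) (hu1 : ‖u‖ < 1)
    (hu : |Complex.arg u| ≤ δ) :
    (u + τ) / (1 + τ * u) ≠ 0 ∧ |Complex.arg ((u + τ) / (1 + τ * u))| < δ / 2 := by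
  have hcosδ : 0 < Real.cos δ := Real.cos_pos_of_mem_Ioo ⟨by linarith, hδ1⟩
  have hsinδ : 0 < Real.sin δ := Real.sin_pos_of_pos_of_lt_pi hδ0 (by linarith)
  set r := ‖u‖ with hr
  set θ := Complex.arg u with hθ
  have hr0 : 0 < r := norm_pos_iff.2 hu0
  have hre : u.re = r * Real.cos θ := (Complex.norm_mul_cos_arg u).symm
  have him : u.im = r * Real.sin θ := (Complex.norm_mul_sin_arg u).symm
  have hcos : Real.cos δ ≤ Real.cos θ := by
    rw [← Real.cos_abs θ]
    exact Real.cos_le_cos_of_nonneg_of_le_pi (abs_nonneg _) (by linarith) hu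
  have hsin : |Real.sin θ| ≤ Real.sin δ := by
    have h1 : |Real.sin θ| = Real.sin |θ| := by
      rcases abs_choice θ with h | h
      · rw [h]
        apply abs_of_nonneg
        apply Real.sin_nonneg_of_nonneg_of_le_pi
        · rw [← h]; exact abs_nonneg _
        · linarith [le_abs_self θ]
      · rw [h, Real.sin_neg]
        apply abs_of_nonpos
        have h2 : 0 ≤ Real.sin (-θ) := by
          apply Real.sin_nonneg_of_nonneg_of_le_pi
          · rw [← h]; exact abs_nonneg _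
          · rw [← h]; linarith
        rw [Real.sin_neg] at h2
        linarith
    rw [h1]
    exact Real.sin_le_sin_of_le_of_le_pi_div_two (by linarith [abs_nonneg θ]) hδ1.le hu
  -- the image
  set v := (u + τ) / (1 + τ * u) with hv
  have hden : 1 + (τ : ℂ) * u ≠ 0 := by
    intro h0
    have h1 : ‖(τ : ℂ) * u‖ = 1 := by
      have : (τ : ℂ) * u = -1 := by linear_combination h0
      rw [this]; simp
    rw [norm_mul, Complex.norm_real, Real.norm_eq_abs, abs_of_pos hτ0] at h1
    nlinarith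
  set Q : ℝ := Complex.normSq (1 + (τ : ℂ) * u) with hQ
  have hQ0 : 0 < Q := Complex.normSq_pos.2 hden
  have hvre : v.re * Q = r * Real.cos θ * (1 + τ ^ 2) + τ * (1 + r ^ 2) := by
    rw [hv, Complex.div_re, ← hQ]
    have hr2 : r ^ 2 = u.re ^ 2 + u.im ^ 2 := by
      rw [hr, ← Complex.normSq_eq_norm_sq, Complex.normSq_apply]; ring
    rw [hr2, ← hre]
    simp only [Complex.add_re, Complex.ofReal_re, Complex.add_im, Complex.ofReal_im, Complex.one_re,
      Complex.mul_re, Complex.one_im, Complex.mul_im]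
    field_simp
    ring
  have hvim : v.im * Q = r * Real.sin θ * (1 - τ ^ 2) := by
    rw [hv, Complex.div_im, ← hQ, ← him]
    simp only [Complex.add_re, Complex.ofReal_re, Complex.add_im, Complex.ofReal_im, Complex.one_re,
      Complex.mul_re, Complex.one_im, Complex.mul_im]
    field_simp
    ring
  have hr2 : 2 * r ≤ 1 + r ^ 2 := by nlinarith [sq_nonneg (r - 1)]
  have hden2 : 0 < Real.cos δ * (1 + τ ^ 2) + 2 * τ := by positivity
  have hlow : r * (Real.cos δ * (1 + τ ^ 2) + 2 * τ) ≤ v.re * Q := by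
    rw [hvre]
    have h1 : r * Real.cos δ * (1 + τ ^ 2) ≤ r * Real.cos θ * (1 + τ ^ 2) := by gcongr
    nlinarith
  have hre0 : 0 < v.re * Q := lt_of_lt_of_le (by positivity) hlow
  have hvre0 : 0 < v.re := (mul_pos_iff_of_pos_right hQ0).1 hre0
  have hv0 : v ≠ 0 := by
    intro h
    rw [h] at hvre0
    simp at hvre0
  refine ⟨hv0, ?_⟩
  have harg : |Complex.arg v| < π / 2 := Complex.abs_arg_lt_pi_div_two_iff.2 (Or.inl hvre0)
  have htan : |Real.tan (Complex.arg v)| < Real.tan (δ / 2) := by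
    rw [Complex.tan_arg, abs_div, abs_of_pos hvre0, div_lt_iff₀ hvre0]
    have h1 : |v.im| * Q = r * |Real.sin θ| * (1 - τ ^ 2) := by
      have h2 : |v.im * Q| = |r * Real.sin θ * (1 - τ ^ 2)| := by rw [hvim]
      rw [abs_mul, abs_of_pos hQ0, abs_mul, abs_mul, abs_of_pos hr0,
        abs_of_nonneg (by nlinarith : 0 ≤ 1 - τ ^ 2)] at h2
      exact h2
    have htd : Real.tan (δ / 2) = Real.sin δ / (1 + Real.cos δ) := by
      have h2 : Real.sin δ = 2 * Real.sin (δ / 2) * Real.cos (δ / 2) := by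
        rw [← Real.sin_two_mul]; congr 1; ring
      have h3 : Real.cos δ = 2 * Real.cos (δ / 2) ^ 2 - 1 := by
        rw [← Real.cos_two_mul]; congr 1; ring
      have h4 : 0 < Real.cos (δ / 2) := Real.cos_pos_of_mem_Ioo ⟨by linarith, by linarith⟩
      rw [Real.tan_eq_sin_div_cos, h2, h3]
      field_simp
      ring
    have h5 : |v.im| * Q < Real.tan (δ / 2) * v.re * Q := by
      rw [h1]
      calc r * |Real.sin θ| * (1 - τ ^ 2) ≤ r * Real.sin δ * (1 - τ ^ 2) := by
            have : 0 ≤ 1 - τ ^ 2 := by nlinarith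
            gcongr
        _ < Real.tan (δ / 2) * (r * (Real.cos δ * (1 + τ ^ 2) + 2 * τ)) := by
            rw [htd, div_mul_eq_mul_div, lt_div_iff₀ (by positivity)]
            have h6 : (1 - τ ^ 2) * (1 + Real.cos δ) < Real.cos δ * (1 + τ ^ 2) + 2 * τ := by
              nlinarith
            have h7 : 0 < r * Real.sin δ := by positivity
            nlinarith
        _ ≤ Real.tan (δ / 2) * (v.re * Q) := by
            have : 0 ≤ Real.tan (δ / 2) := by rw [htd]; positivity
            gcongr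
        _ = Real.tan (δ / 2) * v.re * Q := by ring
    exact lt_of_mul_lt_mul_right h5 hQ0.le
  rw [abs_lt] at harg htan ⊢
  have hmono := Real.strictMonoOn_tan
  have m1 : Complex.arg v ∈ Ioo (-(π / 2)) (π / 2) := ⟨harg.1, harg.2⟩
  have m2 : δ / 2 ∈ Ioo (-(π / 2)) (π / 2) := ⟨by linarith, by linarith⟩
  have m3 : -(δ / 2) ∈ Ioo (-(π / 2)) (π / 2) := ⟨by linarith, by linarith⟩
  constructor
  · rw [← hmono.lt_iff_lt m3 m1, Real.tan_neg]
    exact htan.1
  · rw [← hmono.lt_iff_lt m1 m2]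
    exact htan.2

/-! ### The Banach-Schröder-Bernstein argument -/

/-- Two piecewise isometric injections of `X` into itself with disjoint images give a paradoxical
decomposition. -/
lemma exists_paradox {X : Set ℍ} (hX : MeasurableSet X) (hXne : X.Nonempty) {N : ℕ}
    (S : Fin N → Set ℍ) (hS : ∀ j, MeasurableSet (S j)) (hSd : ∀ i j, i ≠ j → Disjoint (S i) (S j))
    (hSu : ⋃ j, S j = X) (g h : Fin N → (ℍ ≃ᵢ ℍ))
    (hgX : ∀ j, g j '' S j ⊆ X) (hhX : ∀ j, h j '' S j ⊆ X)
    (hgg : ∀ i j, i ≠ j → Disjoint (g i '' S i) (g j '' S j))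
    (hhh : ∀ i j, i ≠ j → Disjoint (h i '' S i) (h j '' S j))
    (hgh : ∀ i j, Disjoint (g i '' S i) (h j '' S j)) :
    ∃ (m n : ℕ) (A : Fin m → Set ℍ) (B : Fin n → Set ℍ) (ρ : Fin m → (ℍ ≃ᵢ ℍ))
      (σ : Fin n → (ℍ ≃ᵢ ℍ)), IsParadox X m n A B ρ σ ∧
        (∀ i, MeasurableSet (A i)) ∧ (∀ j, MeasurableSet (B j)) ∧
        (∀ i, ρ i = IsometryEquiv.refl ℍ ∨ ∃ j, ρ i = g j) ∧ (∀ i, ∃ j, σ i = h j) := by
  classical
  -- images of measurable sets
  have himg : ∀ (f : ℍ ≃ᵢ ℍ) (Z : Set ℍ), MeasurableSet Z → MeasurableSet (f '' Z) := by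
    intro f Z hZ
    have h1 : f '' Z = f.symm ⁻¹' Z := by
      ext x
      constructor
      · rintro ⟨y, hy, rfl⟩
        simpa using hy
      · intro hx
        exact ⟨f.symm x, hx, by simp⟩
    rw [h1]
    exact f.symm.continuous.measurable hZ
  -- the operator `r`
  let r : Set ℍ → Set ℍ := fun Z => ⋃ j, g j '' (S j ∩ Z)
  have hr_meas : ∀ Z, MeasurableSet Z → MeasurableSet (r Z) := fun Z hZ =>
    MeasurableSet.iUnion fun j => himg _ _ ((hS j).inter hZ)
  have hr_sub : ∀ Z, r Z ⊆ X := fun Z => by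
    apply iUnion_subset
    intro j
    exact (image_mono inter_subset_left).trans (hgX j)
  have hr_mem : ∀ {Z : Set ℍ} {x : ℍ}, x ∈ r Z ↔ ∃ j, ∃ y ∈ S j, y ∈ Z ∧ g j y = x := by
    intro Z x
    simp only [r, mem_iUnion, mem_image, mem_inter_iff]
    constructor
    · rintro ⟨j, y, ⟨h1, h2⟩, h3⟩
      exact ⟨j, y, h1, h2, h3⟩
    · rintro ⟨j, y, h1, h2, h3⟩
      exact ⟨j, y, ⟨h1, h2⟩, h3⟩
  have hinj : ∀ {i j : Fin N} {x y : ℍ}, x ∈ S i → y ∈ S j → g i x = g j y → i = j ∧ x = y := by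
    intro i j x y hx hy hxy
    have hij : i = j := by
      by_contra hne
      exact Set.disjoint_left.1 (hgg i j hne) ⟨x, hx, rfl⟩ ⟨y, hy, hxy.symm⟩
    subst hij
    exact ⟨rfl, (g i).injective hxy⟩
  -- the set `Y` of the points which are not covered, and `C`
  set Y : Set ℍ := X \ (r X ∪ ⋃ j, h j '' S j) with hY
  have hYm : MeasurableSet Y :=
    hX.diff ((hr_meas X hX).union (MeasurableSet.iUnion fun j => himg _ _ (hS j)))
  let D : ℕ → Set ℍ := fun n => r^[n] Y
  have hD0 : D 0 = Y := rfl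
  have hDs : ∀ n, D (n + 1) = r (D n) := fun n => by
    simp only [D, Function.iterate_succ_apply']
  set C : Set ℍ := ⋃ n, D n with hC
  have hDm : ∀ n, MeasurableSet (D n) := by
    intro n
    induction n with
    | zero => exact hYm
    | succ n ih => rw [hDs]; exact hr_meas _ ih
  have hCm : MeasurableSet C := MeasurableSet.iUnion hDm
  have hCX : C ⊆ X := by
    apply iUnion_subset
    intro n
    cases n with
    | zero => exact sdiff_subset
    | succ n => rw [hDs]; exact hr_sub _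
  have hCrC : ∀ {x}, x ∈ C ↔ x ∈ Y ∨ x ∈ r C := by
    intro x
    constructor
    · intro hx
      obtain ⟨n, hn⟩ := mem_iUnion.1 hx
      cases n with
      | zero => exact Or.inl hn
      | succ n =>
        rw [hDs] at hn
        obtain ⟨j, y, hy, hyD, hyx⟩ := hr_mem.1 hn
        exact Or.inr (hr_mem.2 ⟨j, y, hy, mem_iUnion.2 ⟨n, hyD⟩, hyx⟩)
    · rintro (hx | hx)
      · exact mem_iUnion.2 ⟨0, hx⟩
      · obtain ⟨j, y, hy, hyC, hyx⟩ := hr_mem.1 hx
        obtain ⟨n, hn⟩ := mem_iUnion.1 hyC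
        refine mem_iUnion.2 ⟨n + 1, ?_⟩
        rw [hDs]
        exact hr_mem.2 ⟨j, y, hy, hn, hyx⟩
  -- the pieces before the empty ones are removed
  let A₀ : Option (Fin N) → Set ℍ := fun o => o.elim C fun j => S j \ C
  let ρ₀ : Option (Fin N) → (ℍ ≃ᵢ ℍ) := fun o => o.elim (IsometryEquiv.refl ℍ) g
  have hA₀m : ∀ o, MeasurableSet (A₀ o) := by
    rintro (_ | j)
    · exact hCm
    · exact (hS j).diff hCm
  have hA₀d : ∀ o o', o ≠ o' → Disjoint (A₀ o) (A₀ o') := by
    rintro (_ | i) (_ | j) hne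
    · exact absurd rfl hne
    · exact disjoint_sdiff_right
    · exact disjoint_sdiff_left
    · exact (hSd i j fun h => hne (by rw [h])).mono sdiff_subset sdiff_subset
  have hA₀u : ⋃ o, A₀ o = X := by
    ext x
    rw [mem_iUnion]
    constructor
    · rintro ⟨_ | j, hx⟩
      · exact hCX hx
      · rw [← hSu]; exact mem_iUnion.2 ⟨j, hx.1⟩
    · intro hx
      by_cases hxC : x ∈ C
      · exact ⟨none, hxC⟩
      · rw [← hSu] at hx
        obtain ⟨j, hj⟩ := mem_iUnion.1 hx
        exact ⟨some j, hj, hxC⟩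
  let T₀ : Option (Fin N) ⊕ Fin N → Set ℍ := Sum.elim (fun o => ρ₀ o '' A₀ o) fun j => h j '' S j
  have hnone : ρ₀ none '' A₀ none = C := by
    change (IsometryEquiv.refl ℍ) '' C = C
    exact image_id C
  have hT₀d : ∀ s s', s ≠ s' → Disjoint (T₀ s) (T₀ s') := by
    have key1 : ∀ j, Disjoint C (g j '' (S j \ C)) := by
      intro j
      rw [Set.disjoint_left]
      rintro x hxC ⟨y, hy, rfl⟩
      rcases hCrC.1 hxC with h1 | h1
      · exact h1.2 (Or.inl (hr_mem.2 ⟨j, y, hy.1, by rw [← hSu]; exact mem_iUnion.2 ⟨j, hy.1⟩, rfl⟩))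
      · obtain ⟨i, z, hz, hzC, hzy⟩ := hr_mem.1 h1
        obtain ⟨rfl, rfl⟩ := hinj hz hy.1 hzy
        exact hy.2 hzC
    have key2 : ∀ j, Disjoint C (h j '' S j) := by
      intro j
      rw [Set.disjoint_left]
      intro x hxC hx
      rcases hCrC.1 hxC with h1 | h1
      · exact h1.2 (Or.inr (mem_iUnion.2 ⟨j, hx⟩))
      · obtain ⟨i, z, hz, hzC, rfl⟩ := hr_mem.1 h1
        exact Set.disjoint_left.1 (hgh i j) ⟨z, hz, rfl⟩ hx
    rintro ((_ | i) | i) ((_ | j) | j) hne
    · exact absurd rfl hne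
    · change Disjoint (ρ₀ none '' A₀ none) (g j '' (S j \ C))
      rw [hnone]; exact key1 j
    · change Disjoint (ρ₀ none '' A₀ none) (h j '' S j)
      rw [hnone]; exact key2 j
    · change Disjoint (g i '' (S i \ C)) (ρ₀ none '' A₀ none)
      rw [hnone]; exact (key1 i).symm
    · change Disjoint (g i '' (S i \ C)) (g j '' (S j \ C))
      exact (hgg i j fun h => hne (by rw [h])).mono (image_mono sdiff_subset)
        (image_mono sdiff_subset)
    · change Disjoint (g i '' (S i \ C)) (h j '' S j)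
      exact (hgh i j).mono (image_mono sdiff_subset) le_rfl
    · change Disjoint (h i '' S i) (ρ₀ none '' A₀ none)
      rw [hnone]; exact (key2 i).symm
    · change Disjoint (h i '' S i) (g j '' (S j \ C))
      exact ((hgh j i).mono (image_mono sdiff_subset) le_rfl).symm
    · exact hhh i j fun h => hne (by rw [h])
  have hT₀u : ⋃ s, T₀ s = X := by
    ext x
    rw [mem_iUnion]
    constructor
    · rintro ⟨(_ | j) | j, hx⟩
      · change x ∈ ρ₀ none '' A₀ none at hx
        rw [hnone] at hx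
        exact hCX hx
      · exact hgX j (image_mono sdiff_subset hx)
      · exact hhX j hx
    · intro hx
      by_cases hxC : x ∈ C
      · refine ⟨Sum.inl none, ?_⟩
        change x ∈ ρ₀ none '' A₀ none
        rw [hnone]; exact hxC
      · have h1 : x ∈ r X ∪ ⋃ j, h j '' S j := by
          by_contra hcon
          exact hxC (hCrC.2 (Or.inl ⟨hx, hcon⟩))
        rcases h1 with h1 | h1
        · obtain ⟨j, y, hy, hyX, rfl⟩ := hr_mem.1 h1
          refine ⟨Sum.inl (some j), y, ⟨hy, fun hyC => hxC (hCrC.2 (Or.inr ?_))⟩, rfl⟩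
          exact hr_mem.2 ⟨j, y, hy, hyC, rfl⟩
        · obtain ⟨j, hj⟩ := mem_iUnion.1 h1
          exact ⟨Sum.inr j, hj⟩
  -- remove the empty pieces
  obtain ⟨m, ⟨e⟩⟩ := Finite.exists_equiv_fin {o // (A₀ o).Nonempty}
  obtain ⟨n, ⟨e'⟩⟩ := Finite.exists_equiv_fin {j // (S j).Nonempty}
  obtain ⟨x₀, hx₀⟩ := hXne
  refine ⟨m, n, fun i => A₀ (e.symm i), fun j => S (e'.symm j), fun i => ρ₀ (e.symm i),
    fun j => h (e'.symm j), ⟨?_, ?_, ?_, ?_, ⟨?_, ?_, ?_⟩, ⟨?_, ?_, ?_⟩, ⟨?_, ?_, ?_⟩⟩, ?_, ?_, ?_, ?_⟩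
  · rw [← hA₀u] at hx₀
    obtain ⟨o, ho⟩ := mem_iUnion.1 hx₀
    exact Nat.succ_le_iff.2 (Fin.pos (e ⟨o, ⟨x₀, ho⟩⟩))
  · rw [← hSu] at hx₀
    obtain ⟨o, ho⟩ := mem_iUnion.1 hx₀
    exact Nat.succ_le_iff.2 (Fin.pos (e' ⟨o, ⟨x₀, ho⟩⟩))
  · exact fun i => (hA₀m _).nullMeasurableSet
  · exact fun i => (hS _).nullMeasurableSet
  · exact fun i => (e.symm i).2
  · intro i j hij
    exact hA₀d _ _ fun h1 => hij (e.symm.injective (Subtype.ext h1))
  · rw [← hA₀u]
    ext x
    simp only [mem_iUnion]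
    constructor
    · rintro ⟨i, hi⟩
      exact ⟨_, hi⟩
    · rintro ⟨o, ho⟩
      exact ⟨e ⟨o, ⟨x, ho⟩⟩, by simpa using ho⟩
  · exact fun i => (e'.symm i).2
  · intro i j hij
    exact hSd _ _ fun h1 => hij (e'.symm.injective (Subtype.ext h1))
  · rw [← hSu]
    ext x
    simp only [mem_iUnion]
    constructor
    · rintro ⟨i, hi⟩
      exact ⟨_, hi⟩
    · rintro ⟨o, ho⟩
      exact ⟨e' ⟨o, ⟨x, ho⟩⟩, by simpa using ho⟩
  · rintro (i | j)
    · exact (e.symm i).2.image _
    · exact (e'.symm j).2.image _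
  · rintro (i | i) (j | j) hij
    · exact hT₀d (Sum.inl _) (Sum.inl _) fun h1 =>
        hij (congrArg Sum.inl (e.symm.injective (Subtype.ext (Sum.inl_injective h1))))
    · exact hT₀d (Sum.inl _) (Sum.inr _) Sum.inl_ne_inr
    · exact hT₀d (Sum.inr _) (Sum.inl _) Sum.inr_ne_inl
    · exact hT₀d (Sum.inr _) (Sum.inr _) fun h1 =>
        hij (congrArg Sum.inr (e'.symm.injective (Subtype.ext (Sum.inr_injective h1))))
  · rw [← hT₀u]
    ext x
    simp only [mem_iUnion]
    constructor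
    · rintro ⟨i | j, hi⟩
      · exact ⟨Sum.inl _, hi⟩
      · exact ⟨Sum.inr _, hi⟩
    · rintro ⟨o | j, ho⟩
      · have hne : (A₀ o).Nonempty := by
          obtain ⟨y, hy, -⟩ := ho
          exact ⟨y, hy⟩
        refine ⟨Sum.inl (e ⟨o, hne⟩), ?_⟩
        change x ∈ ρ₀ (e.symm (e ⟨o, hne⟩)) '' A₀ (e.symm (e ⟨o, hne⟩))
        rw [e.symm_apply_apply]
        exact ho
      · have hne : (S j).Nonempty := by
          obtain ⟨y, hy, -⟩ := ho
          exact ⟨y, hy⟩
        refine ⟨Sum.inr (e' ⟨j, hne⟩), ?_⟩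
        change x ∈ h (e'.symm (e' ⟨j, hne⟩)) '' S (e'.symm (e' ⟨j, hne⟩))
        rw [e'.symm_apply_apply]
        exact ho
  · exact fun i => hA₀m _
  · exact fun i => hS _
  · intro i
    rcases h1 : (e.symm i : Option (Fin N)) with _ | j
    · left
      change ρ₀ (e.symm i) = _
      rw [h1]; rfl
    · right
      refine ⟨j, ?_⟩
      change ρ₀ (e.symm i) = _
      rw [h1]; rfl
  · exact fun i => ⟨_, rfl⟩

/-- The complement of the centre `i` is paradoxical with isometries which move `i` by at most `t`, for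
every `t > ln 2`. -/
lemma exists_paradox_t {t : ℝ} (ht : Real.log 2 < t) :
    ∃ (m n : ℕ) (A : Fin m → Set ℍ) (B : Fin n → Set ℍ) (ρ : Fin m → (ℍ ≃ᵢ ℍ))
      (σ : Fin n → (ℍ ≃ᵢ ℍ)), IsParadox {UpperHalfPlane.I}ᶜ m n A B ρ σ ∧
        (∀ i, MeasurableSet (A i)) ∧ (∀ j, MeasurableSet (B j)) ∧
        (∀ i, dist UpperHalfPlane.I (ρ i UpperHalfPlane.I) ≤ t) ∧
        (∀ j, dist UpperHalfPlane.I (σ j UpperHalfPlane.I) ≤ t) := by
  have ht0 : 0 ≤ t := (Real.log_nonneg (by norm_num)).trans ht.le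
  have hexp : 2 < Real.exp t := by
    rwa [Real.log_lt_iff_lt_exp (by norm_num)] at ht
  set τ : ℝ := (Real.exp t - 1) / (Real.exp t + 1) with hτ
  have hτ3 : 1 / 3 < τ := by
    rw [hτ, div_lt_div_iff₀ (by norm_num) (by positivity)]
    linarith
  have hτ1 : τ < 1 := by
    rw [hτ, div_lt_one (by positivity)]
    linarith
  -- the number of the sectors
  obtain ⟨N, hN0, hNδ⟩ : ∃ N : ℕ, 3 ≤ N ∧
      1 - 2 * τ - τ ^ 2 < 2 * τ ^ 2 * Real.cos (π / N) := by
    have h1 : Tendsto (fun N : ℕ => 2 * τ ^ 2 * Real.cos (π / N)) atTop (𝓝 (2 * τ ^ 2 * Real.cos 0)) :=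
      (Real.continuous_cos.tendsto 0).comp (tendsto_const_div_atTop_nhds_zero_nat π) |>.const_mul _
    have h2 : 1 - 2 * τ - τ ^ 2 < 2 * τ ^ 2 * Real.cos 0 := by
      rw [Real.cos_zero]
      nlinarith
    obtain ⟨N, hN1, hN2⟩ := ((h1.eventually (lt_mem_nhds h2)).and (eventually_ge_atTop 3)).exists
    exact ⟨N, hN2, hN1⟩
  set δ : ℝ := π / N with hδ
  have hNr : (3 : ℝ) ≤ N := by exact_mod_cast hN0
  have hN' : (0 : ℝ) < N := by linarith
  have hδ0 : 0 < δ := by positivity
  have hNδ' : N * δ = π := by rw [hδ]; field_simp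
  have hδ2 : δ < π / 2 := by
    rw [hδ]
    exact div_lt_div_of_pos_left Real.pi_pos (by norm_num) (by linarith)
  have hpi := Real.pi_pos
  -- the sectors and the isometries
  let S : Fin N → Set ℍ := fun j => {z | z ≠ UpperHalfPlane.I ∧
    Complex.arg (w z) ∈ Ioc (-π + 2 * j * δ) (-π + 2 * (j + 1) * δ)}
  let slot : ℕ → Set ℍ := fun k => {z | z ≠ UpperHalfPlane.I ∧
    Complex.arg (w z) ∈ Ioo (-π + k * δ) (-π + (k + 1) * δ)}
  have hslot : ∀ k l : ℕ, k ≠ l → Disjoint (slot k) (slot l) := by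
    intro k l hkl
    rw [Set.disjoint_left]
    rintro z ⟨-, h1, h2⟩ ⟨-, h3, h4⟩
    rcases Nat.lt_or_gt_of_ne hkl with h5 | h5
    · have : (k : ℝ) + 1 ≤ l := by exact_mod_cast h5
      have := mul_le_mul_of_nonneg_right this hδ0.le
      linarith
    · have : (l : ℝ) + 1 ≤ k := by exact_mod_cast h5
      have := mul_le_mul_of_nonneg_right this hδ0.le
      linarith
  have key : ∀ (j : Fin N) (k : ℕ), k < 2 * N → ∃ g : ℍ ≃ᵢ ℍ,
      dist UpperHalfPlane.I (g UpperHalfPlane.I) = t ∧ g '' S j ⊆ slot k := by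
    intro j k hk
    obtain ⟨g, hg1, hg2⟩ := exists_isometry ht0 (-π + (k + 1 / 2) * δ) (-π + (2 * j + 1) * δ)
    refine ⟨g, hg1, ?_⟩
    rintro _ ⟨z, ⟨hz0, hz1, hz2⟩, rfl⟩
    have hw0 : w z ≠ 0 := fun h => hz0 (w_eq_zero.1 h)
    have hjN : ((j : ℕ) : ℝ) + 1 ≤ N := by exact_mod_cast j.2
    have hj0 : (0 : ℝ) ≤ ((j : ℕ) : ℝ) := Nat.cast_nonneg _
    set β : ℝ := -π + (2 * j + 1) * δ with hβ
    set u : ℂ := Complex.exp ((-β : ℝ) * Complex.I) * w z with hu
    have hu0 : u ≠ 0 := mul_ne_zero (Complex.exp_ne_zero _) hw0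
    have hu1 : ‖u‖ < 1 := by
      rw [hu, norm_mul, Complex.norm_exp_ofReal_mul_I, one_mul]
      exact norm_w_lt z
    have hβπ : -β ∈ Ioc (-π) π := by
      have h1 : ((j : ℕ) : ℝ) * δ + δ ≤ π := by
        rw [← hNδ']; nlinarith
      have h2 : 0 ≤ ((j : ℕ) : ℝ) * δ := by positivity
      constructor
      · rw [hβ]; nlinarith
      · rw [hβ]; nlinarith
    have hargu : Complex.arg u = -β + Complex.arg (w z) := by
      have h1 : Complex.arg (Complex.exp ((-β : ℝ) * Complex.I)) = -β := by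
        rw [Complex.arg_exp_mul_I]
        exact (toIocMod_eq_self Real.two_pi_pos).2 (by
          have : -π + 2 * π = π := by ring
          rw [this]; exact hβπ)
      rw [hu, Complex.arg_mul (Complex.exp_ne_zero _) hw0]
      · rw [h1]
      · rw [h1]
        constructor
        · rw [hβ]; nlinarith
        · rw [hβ]; nlinarith
    have hu2 : |Complex.arg u| ≤ δ := by
      rw [hargu, abs_le, hβ]
      constructor <;> nlinarith
    obtain ⟨hv0, hv1⟩ := contraction (by linarith) hτ1 hδ0 hδ2 hNδ hu0 hu1 hu2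
    set v : ℂ := (u + τ) / (1 + τ * u) with hv
    have hwg : w (g z) = Complex.exp ((-π + (k + 1 / 2) * δ : ℝ) * Complex.I) * v := hg2 z
    have hk' : ((k : ℝ) + 1) * δ ≤ 2 * π := by
      have h1 : (k : ℝ) + 1 ≤ 2 * N := by exact_mod_cast hk
      rw [← hNδ']; nlinarith
    have hk0 : 0 ≤ (k : ℝ) * δ := by positivity
    rw [abs_lt] at hv1
    have hargv : Complex.arg (w (g z)) = (-π + (k + 1 / 2) * δ) + Complex.arg v := by
      have h1 : Complex.arg (Complex.exp ((-π + (k + 1 / 2) * δ : ℝ) * Complex.I)) =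
          -π + (k + 1 / 2) * δ := by
        rw [Complex.arg_exp_mul_I]
        exact (toIocMod_eq_self Real.two_pi_pos).2 (by
          have : -π + 2 * π = π := by ring
          rw [this]; constructor <;> nlinarith)
      rw [hwg, Complex.arg_mul (Complex.exp_ne_zero _) hv0]
      · rw [h1]
      · rw [h1]
        constructor <;> nlinarith
    refine ⟨?_, ?_⟩
    · intro h
      rw [← w_eq_zero, hwg] at h
      exact (mul_ne_zero (Complex.exp_ne_zero _) hv0) h
    · rw [hargv]
      constructor <;> nlinarith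
  choose g hg1 hg2 using fun j : Fin N => key j (2 * j) (by have := j.2; omega)
  choose h hh1 hh2 using fun j : Fin N => key j (2 * j + 1) (by have := j.2; omega)
  have hslotX : ∀ k, slot k ⊆ {UpperHalfPlane.I}ᶜ := fun k z hz => hz.1
  have hXne : ({UpperHalfPlane.I}ᶜ : Set ℍ).Nonempty := by
    obtain ⟨g', hg', -⟩ := exists_translation (t := 1) zero_le_one
    refine ⟨g' UpperHalfPlane.I, fun h => ?_⟩
    rw [mem_singleton_iff] at h
    rw [h, dist_self] at hg'
    exact zero_ne_one hg'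
  have hSu : ⋃ j, S j = {UpperHalfPlane.I}ᶜ := by
    ext z
    rw [mem_iUnion]
    constructor
    · rintro ⟨j, hz⟩
      exact hz.1
    · intro hz
      have h1 := Complex.neg_pi_lt_arg (w z)
      have h2 := Complex.arg_le_pi (w z)
      set a := Complex.arg (w z) with ha
      -- the index
      set k : ℕ := ⌈(a + π) / (2 * δ)⌉₊ with hk
      have hpos : 0 < (a + π) / (2 * δ) := by
        have : 0 < a + π := by linarith
        positivity
      have hk1 : 0 < k := Nat.ceil_pos.2 hpos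
      have hk2 : k ≤ N := by
        rw [hk, Nat.ceil_le, div_le_iff₀ (by positivity)]
        have : (N : ℝ) * (2 * δ) = 2 * π := by rw [← hNδ']; ring
        rw [this]; linarith
      refine ⟨⟨k - 1, by omega⟩, hz, ?_, ?_⟩
      · have h3 : ((k - 1 : ℕ) : ℝ) < (a + π) / (2 * δ) := by
          rw [← Nat.lt_ceil, ← hk]; omega
        rw [lt_div_iff₀ (by positivity)] at h3
        simp only
        linarith
      · have h3 : (a + π) / (2 * δ) ≤ k := Nat.le_ceil _
        rw [div_le_iff₀ (by positivity)] at h3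
        have h4 : ((k - 1 : ℕ) : ℝ) + 1 = k := by
          have : ((k - 1 + 1 : ℕ) : ℝ) = k := by rw [Nat.sub_add_cancel hk1]
          rw [← this]; push_cast; ring
        simp only
        rw [h4]
        linarith
  have hSd : ∀ i j, i ≠ j → Disjoint (S i) (S j) := by
    intro i j hij
    rw [Set.disjoint_left]
    rintro z ⟨-, h1, h2⟩ ⟨-, h3, h4⟩
    have hne : (i : ℕ) ≠ j := fun h => hij (Fin.ext h)
    rcases Nat.lt_or_gt_of_ne hne with h5 | h5
    · have : ((i : ℕ) : ℝ) + 1 ≤ ((j : ℕ) : ℝ) := by exact_mod_cast h5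
      have := mul_le_mul_of_nonneg_right this hδ0.le
      nlinarith
    · have : ((j : ℕ) : ℝ) + 1 ≤ ((i : ℕ) : ℝ) := by exact_mod_cast h5
      have := mul_le_mul_of_nonneg_right this hδ0.le
      nlinarith
  have hSm : ∀ j, MeasurableSet (S j) := by
    intro j
    have h1 : Measurable fun z : ℍ => Complex.arg (w z) := Complex.measurable_arg.comp measurable_w
    have h2 : MeasurableSet {z : ℍ | z ≠ UpperHalfPlane.I} :=
      (isClosed_singleton (x := UpperHalfPlane.I)).measurableSet.compl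
    exact h2.inter (h1 measurableSet_Ioc)
  obtain ⟨m, n, A, B, ρ, σ, hP, hA, hB, hρ, hσ⟩ := exists_paradox
    (isClosed_singleton (x := UpperHalfPlane.I)).measurableSet.compl hXne S hSm hSd hSu g h
    (fun j => (hg2 j).trans (hslotX _)) (fun j => (hh2 j).trans (hslotX _))
    (fun i j hij => (hslot (2 * i) (2 * j) (by
      intro h; apply hij; ext; omega)).mono (hg2 i) (hg2 j))
    (fun i j hij => (hslot (2 * i + 1) (2 * j + 1) (by
      intro h; apply hij; ext; omega)).mono (hh2 i) (hh2 j))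
    (fun i j => (hslot (2 * i) (2 * j + 1) (by omega)).mono (hg2 i) (hh2 j))
  refine ⟨m, n, A, B, ρ, σ, hP, hA, hB, fun i => ?_, fun j => ?_⟩
  · rcases hρ i with h1 | ⟨j, h1⟩
    · rw [h1]
      change dist UpperHalfPlane.I UpperHalfPlane.I ≤ t
      rw [dist_self]; exact ht0
    · rw [h1]; exact (hg1 j).le
  · obtain ⟨i, h1⟩ := hσ j
    rw [h1]; exact (hh1 i).le

/-- The complement of the point `i` has positive area. -/
lemma volume_compl_ne_zero : volume ({UpperHalfPlane.I}ᶜ : Set ℍ) ≠ 0 := by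
  intro h
  have hm : MeasurableSet ({UpperHalfPlane.I}ᶜ : Set ℍ) :=
    (isClosed_singleton (x := UpperHalfPlane.I)).measurableSet.compl
  have hopen : IsOpen ((↑) '' ({UpperHalfPlane.I}ᶜ : Set ℍ) : Set ℂ) :=
    isOpenEmbedding_coe.isOpenMap _ (isClosed_singleton (x := UpperHalfPlane.I)).isOpen_compl
  rw [volume_eq_lintegral, lintegral_eq_zero_iff (by fun_prop)] at h
  have h2 : ∀ᵐ z : ℂ ∂(volume.restrict ((↑) '' ({UpperHalfPlane.I}ᶜ : Set ℍ) : Set ℂ)), False := by
    filter_upwards [h, ae_restrict_mem hopen.measurableSet] with z hz hz2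
    obtain ⟨τ, -, rfl⟩ := hz2
    have h3 : (τ : ℂ).im ≠ 0 := τ.im_ne_zero
    simp at hz
    exact h3 hz
  rw [Filter.eventually_false_iff_eq_bot, ae_eq_bot, Measure.restrict_eq_zero] at h2
  refine hopen.measure_ne_zero volume ?_ h2
  refine ⟨((⟨2 * Complex.I, by simp⟩ : ℍ) : ℂ), ⟨2 * Complex.I, by simp⟩, ?_, rfl⟩
  intro h4
  have := congrArg UpperHalfPlane.im h4
  simp [UpperHalfPlane.im] at this

/-- **There is no constant `c > ln 2` with property `(∗_c)`.** More precisely, for every `c > ln 2` the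
complement `X` of the point `i` of the upper half-plane has a paradoxical decomposition with Borel
pieces in which every isometry moves `i` by less than `c`; the area of `X` is positive. -/
theorem result :
    (¬ ∃ c : ℝ, Real.log 2 < c ∧ Star c) ∧
    (volume ({UpperHalfPlane.I}ᶜ : Set ℍ) ≠ 0) ∧
    ∀ c : ℝ, Real.log 2 < c → ∃ (m n : ℕ) (A : Fin m → Set ℍ) (B : Fin n → Set ℍ)
      (ρ : Fin m → (ℍ ≃ᵢ ℍ)) (σ : Fin n → (ℍ ≃ᵢ ℍ)), IsParadox {UpperHalfPlane.I}ᶜ m n A B ρ σ ∧
        (∀ i, MeasurableSet (A i)) ∧ (∀ j, MeasurableSet (B j)) ∧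
        (∀ i, dist UpperHalfPlane.I (ρ i UpperHalfPlane.I) < c) ∧
        (∀ j, dist UpperHalfPlane.I (σ j UpperHalfPlane.I) < c) := by
  have hmain : ∀ c : ℝ, Real.log 2 < c → ∃ (m n : ℕ) (A : Fin m → Set ℍ) (B : Fin n → Set ℍ)
      (ρ : Fin m → (ℍ ≃ᵢ ℍ)) (σ : Fin n → (ℍ ≃ᵢ ℍ)), IsParadox {UpperHalfPlane.I}ᶜ m n A B ρ σ ∧
        (∀ i, MeasurableSet (A i)) ∧ (∀ j, MeasurableSet (B j)) ∧
        (∀ i, dist UpperHalfPlane.I (ρ i UpperHalfPlane.I) < c) ∧
        (∀ j, dist UpperHalfPlane.I (σ j UpperHalfPlane.I) < c) := by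
    intro c hc
    obtain ⟨t, ht1, ht2⟩ := exists_between hc
    obtain ⟨m, n, A, B, ρ, σ, h1, h2, h3, h4, h5⟩ := exists_paradox_t ht1
    exact ⟨m, n, A, B, ρ, σ, h1, h2, h3, fun i => (h4 i).trans_lt ht2, fun j => (h5 j).trans_lt ht2⟩
  have hvol : volume ({UpperHalfPlane.I}ᶜ : Set ℍ) ≠ 0 := volume_compl_ne_zero
  refine ⟨?_, hvol, hmain⟩
  rintro ⟨c, hc, hstar⟩
  obtain ⟨m, n, A, B, ρ, σ, h1, h2, h3, h4, h5⟩ := hmain c hc
  have hX : NullMeasurableSet ({UpperHalfPlane.I}ᶜ : Set ℍ) :=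
    (isClosed_singleton (x := UpperHalfPlane.I)).measurableSet.compl.nullMeasurableSet
  rcases hstar _ hX m n A B ρ σ h1 with h | h
  · exact hvol h
  · rcases h UpperHalfPlane.I with ⟨i, hi⟩ | ⟨j, hj⟩
    · exact absurd hi (not_le.2 (h4 i))
    · exact absurd hj (not_le.2 (h5 j))

end Pool.Agent.Results.MP_9ed947_gt.LogTwoOptimal
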